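import Pool.Agent.H.MP_3d7070_lc.Defs

namespace Pool.Agent.H.MP_3d7070_lc

section gen
variable {Q A : Type} [DecidableEq Q] {δ : Q → A → Q} {k : ℕ}

theorem img_img (P : Finset Q) (u v : List A) : img δ (img δ P u) v = img δ P (u ++ v) := by
  simp [img, Finset.image_image, Function.comp_def]

theorem img_pair (p q : Q) (u : List A) : img δ {p, q} u = {u.foldl δ p, u.foldl δ q} := by simp [img]

theorem Within.succ {N : ℕ} : ∀ {P : Finset Q}, Within δ k N P → Within δ k (N + 1) P := by
  induction N with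
  | zero => exact fun h => h.elim
  | succ N ih => exact fun ⟨a, h⟩ => ⟨a, h.imp_right fun h u hu => ih (h u hu)⟩

theorem Within.mono {N N' : ℕ} {P : Finset Q} (h : Within δ k N P) (h1 : N ≤ N') : Within δ k N' P := by
  induction h1 with
  | refl => exact h
  | step _ ih => exact ih.succ

theorem Within.subset {N : ℕ} : ∀ {P P' : Finset Q}, Within δ k N P → P' ⊆ P → P'.Nonempty → Within δ k N P' := by
  induction N with
  | zero => exact fun h => h.elim
  | succ N ih =>
    rintro P P' ⟨a, h | h⟩ h1 h2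
    · refine ⟨a, Or.inl (le_antisymm (h ▸ Finset.card_le_card (Finset.image_subset_image h1)) ?_)⟩
      exact Finset.card_pos.2 (h2.image _)
    · exact ⟨a, Or.inr fun u hu => ih (h u hu) (Finset.image_subset_image (Finset.image_subset_image h1))
        ((h2.image _).image _)⟩

theorem merge {K m : ℕ} (hK : ∀ P' : Finset Q, P'.Nonempty → P'.card < m → Within δ k K P') (r : ℕ) :
    ∀ (P : Finset Q) p q, P.card = m → p ∈ P → q ∈ P → p ≠ q → Within δ k r {p, q} → Within δ k (r + K) P := by
  induction r with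
  | zero => exact fun _ _ _ _ _ _ _ h => h.elim
  | succ r ih =>
    rintro P p q hP hp hq hpq ⟨a, h⟩
    rw [Nat.add_right_comm]
    refine ⟨a, Or.inr fun u hu => ?_⟩
    rw [img_img]
    by_cases h1 : (img δ P ([a] ++ u)).card < m
    · exact (hK _ (Finset.Nonempty.image ⟨p, hp⟩ _) h1).mono (by omega)
    have h2 : (img δ P ([a] ++ u)).card = P.card := le_antisymm Finset.card_image_le (by omega)
    have h3 := Finset.card_image_iff.1 h2
    have h4 : ([a] ++ u).foldl δ p ≠ ([a] ++ u).foldl δ q := fun h4 => hpq (h3 hp hq h4)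
    rcases h with h | h
    · rw [img_pair, Finset.card_eq_one] at h
      obtain ⟨x, hx⟩ := h
      have h5 : [a].foldl δ p ∈ ({x} : Finset Q) := hx ▸ by simp
      have h6 : [a].foldl δ q ∈ ({x} : Finset Q) := hx ▸ by simp
      rw [Finset.mem_singleton] at h5 h6
      exact absurd (by rw [List.foldl_append, List.foldl_append, h5, h6]) h4
    · have h5 := h u hu
      rw [img_img, img_pair] at h5
      exact ih _ _ _ (h2.trans hP) (Finset.mem_image_of_mem _ hp) (Finset.mem_image_of_mem _ hq) h4 h5

theorem within_one (a : A) {P : Finset Q} (h : (img δ P [a]).card = 1) : Within δ k 1 P := ⟨a, Or.inl h⟩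

theorem all_win (a : A) {R : ℕ} (hR : ∀ p q, Within δ k R {p, q}) (m : ℕ) :
    ∀ P : Finset Q, P.Nonempty → P.card < m → Within δ k (m * R + 1) P := by
  induction m with
  | zero => intro P _ h; omega
  | succ m ih =>
    intro P h0 h
    by_cases h1 : P.card < m
    · exact (ih P h0 h1).mono (by nlinarith)
    by_cases h2 : P.card = 1
    · refine (within_one a (le_antisymm (h2 ▸ Finset.card_image_le) (Finset.card_pos.2 (h0.image _)))).mono (by omega)
    have := h0.card_pos
    obtain ⟨p, hp, q, hq, h3⟩ := Finset.one_lt_card.1 (by omega : 1 < P.card)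
    exact (merge ih R P p q (by omega) hp hq h3 (hR p q)).mono (by nlinarith)

end gen

inductive B (c : ℕ)
  | park (i : Fin (c + 2))
  | X (t : ZMod (c + 1))
  | Z (t : ZMod (c + 2))
  | g
  deriving DecidableEq, Fintype

inductive L (c : ℕ)
  | a1 (i : Fin (c + 2))
  | a2 (i : Fin (c + 2))
  | inc
  | mrg
  deriving DecidableEq, Fintype

variable {c : ℕ}

def f : L c → B c → B c
  | .a1 i, .park j => if j = i then .X 0 else .park j
  | .a1 i, .X _ => .park i
  | .a1 _, .Z _ => .Z 0
  | .a2 i, .park j => if j = i then .Z 0 else .park j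
  | .a2 _, .X _ => .X 0
  | .a2 i, .Z _ => .park i
  | .inc, .X t => .X (t + 1)
  | .inc, .Z t => .Z (t + 1)
  | .mrg, .X t => if t = -1 then .g else .X 0
  | .mrg, .Z t => if t = -1 then .g else .Z 0
  | _, q => q

def h (b : Bool) : B c → B c
  | .g => if b then .X 0 else .Z 0
  | q => q

def δ (c : ℕ) : Bool × B c → L c ⊕ Bool → Bool × B c
  | (true, q), .inl a => (false, f a q)
  | (false, _), .inl _ => (false, .g)
  | (true, q), .inr _ => (true, q)
  | (false, q), .inr b => (true, h b q)

def W (c r : ℕ) (p q : B c) : Prop := Within (δ c) 2 r {(true, p), (true, q)}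

theorem W.symm {r : ℕ} {p q : B c} (h : W c r p q) : W c r q p := by
  unfold W at *; rwa [Finset.pair_comm]

theorem W.mono {r s : ℕ} {p q : B c} (h : W c r p q) (h1 : r ≤ s) : W c s p q := Within.mono h h1

theorem one_same (x : Bool × B c) {r : ℕ} : Within (δ c) 2 (r + 1) {x, x} :=
  (within_one (.inl .inc) (by simp [img])).mono (by omega)

theorem one_B (p q : B c) {r : ℕ} : Within (δ c) 2 (r + 1) {(false, p), (false, q)} :=
  (within_one (.inl .inc) (by simp [img, δ])).mono (by omega)

theorem afterA {r : ℕ} {p q : B c} (hw : ∀ b, W c (r + 1) (h b p) (h b q)) (u : List (L c ⊕ Bool)) (hu : u.length ≤ 2) :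
    Within (δ c) 2 (r + 1) (img (δ c) {(false, p), (false, q)} u) := by
  rw [img_pair]
  match u, hu with
  | [], _ => exact one_B _ _
  | [.inl _], _ => exact one_B _ _
  | [.inr b], _ => exact hw b
  | [.inl _, _], _ => exact one_same _
  | [.inr _, .inl _], _ => exact one_B _ _
  | [.inr b, .inr _], _ => exact hw b
  | _ :: _ :: _ :: _, h => simp at h

theorem W.step {r : ℕ} {p q : B c} (a : L c) (hw : ∀ b, W c (r + 1) (h b (f a p)) (h b (f a q))) : W c (r + 2) p q :=
  ⟨.inl a, Or.inr fun u hu => by rw [img_pair]; exact afterA hw u hu⟩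

theorem W.same {r : ℕ} (p : B c) : W c (r + 1) p p := one_same _

theorem w_count (j : ℕ) : ∀ t : ℕ, t + j + 1 = (c + 1) * (c + 2) → W c (j + 1) (.X t) (.Z t) := by
  induction j with
  | zero =>
    intro t ht
    have h1 : (t : ZMod (c + 1)) = -1 := by
      rw [eq_neg_iff_add_eq_zero, ← Nat.cast_succ, ZMod.natCast_eq_zero_iff]; exact ⟨_, ht⟩
    have h2 : (t : ZMod (c + 2)) = -1 := by
      rw [eq_neg_iff_add_eq_zero, ← Nat.cast_succ, ZMod.natCast_eq_zero_iff]; exact ⟨_, ht.trans (mul_comm _ _)⟩
    exact within_one (.inl .mrg) (by simp [img, δ, f, h1, h2])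
  | succ j ih =>
    intro t ht
    refine W.step .inc fun b => ?_
    simpa [f, h] using ih (t + 1) (by omega)

theorem w_00 : ∃ r, W c (r + 1) (.X 0) (.Z 0) := by
  obtain ⟨r, hr⟩ : ∃ r, 0 + r + 1 = (c + 1) * (c + 2) := ⟨(c + 1) * (c + 2) - 1, by
    have : 0 < (c + 1) * (c + 2) := by positivity
    omega⟩
  exact ⟨r, by simpa using w_count r 0 hr⟩

theorem w_all : ∃ R, ∀ p q, Within (δ c) 2 R {p, q} := by
  obtain ⟨r, hr⟩ := w_00 (c := c)
  have xz : ∀ u v, W c (r + 2) (.X u) (.Z v) := fun u v => W.step .mrg fun b => by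
    by_cases h1 : u = -1 <;> by_cases h2 : v = -1 <;> cases b <;> simp only [f, h, h1, h2, if_true, if_false,
      Bool.false_eq_true] <;> first | exact hr | exact W.same _
  have xp : ∀ u j, W c (r + 2) (.X u) (.park j) := fun u j => W.step (.a2 j) fun b => by simpa [f, h] using hr
  have zp : ∀ u j, W c (r + 2) (.Z u) (.park j) := fun u j => W.step (.a1 j) fun b => by simpa [f, h] using hr.symm
  have xx : ∀ u v, W c (r + 2) (.X u) (.X v) := fun u v => W.step (.a1 0) fun b => W.same _
  have zz : ∀ u v, W c (r + 2) (.Z u) (.Z v) := fun u v => W.step (.a2 0) fun b => W.same _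
  have pp : ∀ i j, W c (r + 3) (.park i) (.park j) := fun i j => W.step (.a1 i) fun b => by
    by_cases h1 : j = i
    · subst h1; exact W.same _
    · simpa [f, h, h1] using xp 0 j
  have al : ∀ p q : B c, p ≠ .g → q ≠ .g → W c (r + 3) p q := by
    intro p q hp hq
    cases p <;> cases q <;> first | exact absurd rfl hp | exact absurd rfl hq | exact pp _ _ |
      exact (xp _ _).mono (by omega) | exact (zp _ _).mono (by omega) | exact (xz _ _).mono (by omega) |
      exact (xp _ _).symm.mono (by omega) | exact (zp _ _).symm.mono (by omega) | exact (xz _ _).symm.mono (by omega) |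
      exact (xx _ _).mono (by omega) | exact (zz _ _).mono (by omega)
  have ng : ∀ b (p : B c), h b p ≠ .g := by
    intro b p; cases p <;> cases b <;> simp [h]
  refine ⟨r + 4, fun p q => ⟨.inl .inc, Or.inr fun u hu => ?_⟩⟩
  rw [img_pair]
  obtain ⟨_ | _, p⟩ := p <;> obtain ⟨_ | _, q⟩ := q <;> exact afterA (fun b => al _ _ (ng _ _) (ng _ _)) u hu

end Pool.Agent.H.MP_3d7070_lc
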