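import Pool.Agent.H.MP_3d7070_lc.A

namespace Pool.Agent.H.MP_3d7070_lc

variable {c : ℕ}

structure Good (P : Finset (B c)) (t : ℕ) : Prop where
  ng : B.g ∉ P
  x : ∀ u v, B.X u ∈ P → B.X v ∈ P → u = v
  z : ∀ u v, B.Z u ∈ P → B.Z v ∈ P → u = v
  xz : ∀ u v, B.X u ∈ P → B.Z v ∈ P → u = t ∧ v = t
  lt : t < (c + 1) * (c + 2)

theorem good0 {P : Finset (B c)} {φ : B c → B c}
    (hφ : ∀ q ∈ P, (∃ j, φ q = .park j) ∨ φ q = .X 0 ∨ φ q = .Z 0) : Good (P.image φ) 0 := by
  have h1 : ∀ q ∈ P.image φ, (∃ j, q = .park j) ∨ q = .X 0 ∨ q = .Z 0 := by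
    intro q hq
    obtain ⟨p, hp, rfl⟩ := Finset.mem_image.1 hq
    exact hφ p hp
  refine ⟨fun h => by simpa using h1 _ h, fun u v hu hv => ?_, fun u v hu hv => ?_, fun u v hu hv => ?_, by positivity⟩
  · have := h1 _ hu; have := h1 _ hv; simp_all
  · have := h1 _ hu; have := h1 _ hv; simp_all
  · have := h1 _ hu; have := h1 _ hv; simp_all

theorem step_inc {P : Finset (B c)} {t : ℕ} (hP : Good P t) :
    ∃ t' ≤ t + 1, Good (P.image fun q => h true (f .inc q)) t' := by
  have hx : ∀ u, B.X u ∈ P.image (fun q => h true (f .inc q)) → B.X (u - 1) ∈ P := by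
    intro u hu
    obtain ⟨p, hp, h1⟩ := Finset.mem_image.1 hu
    cases p with
    | g => exact absurd hp hP.ng
    | X v => simp only [f, h, B.X.injEq] at h1; simpa [← h1] using hp
    | _ => simp [f, h] at h1
  have hz : ∀ u, B.Z u ∈ P.image (fun q => h true (f .inc q)) → B.Z (u - 1) ∈ P := by
    intro u hu
    obtain ⟨p, hp, h1⟩ := Finset.mem_image.1 hu
    cases p with
    | Z v => simp only [f, h, B.Z.injEq] at h1; simpa [← h1] using hp
    | _ => simp [f, h] at h1
  refine ⟨(t + 1) % ((c + 1) * (c + 2)), Nat.mod_le _ _, fun h1 => ?_, fun u v hu hv => ?_, fun u v hu hv => ?_,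
    fun u v hu hv => ?_, Nat.mod_lt _ (by positivity)⟩
  · obtain ⟨p, -, h1⟩ := Finset.mem_image.1 h1
    cases p <;> simp [f, h] at h1
  · simpa using hP.x _ _ (hx u hu) (hx v hv)
  · simpa using hP.z _ _ (hz u hu) (hz v hv)
  · obtain ⟨h1, h2⟩ := hP.xz _ _ (hx u hu) (hz v hv)
    rw [sub_eq_iff_eq_add, ← Nat.cast_succ] at h1 h2
    rw [h1, h2, ZMod.natCast_eq_natCast_iff', ZMod.natCast_eq_natCast_iff', Nat.mod_mul_right_mod,
      Nat.mod_mul_left_mod]
    exact ⟨rfl, rfl⟩

theorem step {P : Finset (B c)} {t : ℕ} (hP : Good P t) (a : L c) : ∃ b t', Good (P.image fun q => h b (f a q)) t' ∧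
    ((P.image fun q => h b (f a q)).card = P.card ∧ t' ≤ t + 1 ∨
      t + 1 = (c + 1) * (c + 2) ∧ t' = 0 ∧ P.card ≤ (P.image fun q => h b (f a q)).card + 1) := by
  have ng := hP.ng
  cases a with
  | a1 i =>
    refine ⟨true, 0, good0 fun q hq => ?_, Or.inl ⟨Finset.card_image_of_injOn fun p hp q hq h1 => ?_, by omega⟩⟩
    · cases q <;> simp only [f] <;> (try split_ifs) <;> simp [h]
    · have h2 := hP.x; have h3 := hP.z
      rw [Finset.mem_coe] at hp hq
      cases p <;> cases q <;> simp only [f] at h1 <;> (try split_ifs at h1) <;> simp_all [h]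
      all_goals first | exact h2 _ _ hp hq | exact h3 _ _ hp hq
  | a2 i =>
    refine ⟨true, 0, good0 fun q hq => ?_, Or.inl ⟨Finset.card_image_of_injOn fun p hp q hq h1 => ?_, by omega⟩⟩
    · cases q <;> simp only [f] <;> (try split_ifs) <;> simp [h]
    · have h2 := hP.x; have h3 := hP.z
      rw [Finset.mem_coe] at hp hq
      cases p <;> cases q <;> simp only [f] at h1 <;> (try split_ifs at h1) <;> simp_all [h]
      all_goals first | exact h2 _ _ hp hq | exact h3 _ _ hp hq
  | inc =>
    obtain ⟨t', h1, h2⟩ := step_inc hP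
    refine ⟨true, t', h2, Or.inl ⟨Finset.card_image_of_injOn fun p hp q hq h1 => ?_, h1⟩⟩
    rw [Finset.mem_coe] at hp hq
    cases p <;> cases q <;> simp_all [f, h]
  | mrg =>
    have g0 : ∀ b, Good (P.image fun q => h b (f .mrg q)) 0 := fun b => good0 fun q hq => by
      cases q <;> cases b <;> simp only [f] <;> (try split_ifs) <;> simp [h]
    have inj : ∀ b, ∀ P' ⊆ P, (if b then B.Z (-1) else B.X (-1)) ∉ P' →
        Set.InjOn (fun q => h b (f .mrg q)) (P' : Set (B c)) := by
      intro b P' hs hn p hp q hq h1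
      have h2 := hP.x; have h3 := hP.z
      have hp' := hs hp
      have hq' := hs hq
      rw [Finset.mem_coe] at hp hq
      cases b <;> cases p <;> cases q <;> simp only [f] at h1 <;> (try split_ifs at h1) <;> simp_all [h]
      all_goals first | exact h2 _ _ hp' hq' | exact h3 _ _ hp' hq' | exact absurd (h2 _ _ hp' hq') (by assumption) |
        exact absurd (h3 _ _ hp' hq') (by assumption) | exact absurd (h2 _ _ hq' hp') (by assumption) |
        exact absurd (h3 _ _ hq' hp') (by assumption)
    by_cases h1 : B.Z (-1) ∈ P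
    swap
    · exact ⟨true, 0, g0 _, Or.inl ⟨Finset.card_image_of_injOn (inj true P le_rfl h1), by omega⟩⟩
    by_cases h2 : B.X (-1) ∈ P
    swap
    · exact ⟨false, 0, g0 _, Or.inl ⟨Finset.card_image_of_injOn (inj false P le_rfl h2), by omega⟩⟩
    refine ⟨true, 0, g0 _, Or.inr ⟨?_, rfl, ?_⟩⟩
    · obtain ⟨h3, h4⟩ := hP.xz _ _ h2 h1
      rw [eq_comm, eq_neg_iff_add_eq_zero, ← Nat.cast_succ, ZMod.natCast_eq_zero_iff] at h3 h4
      have : (c + 1) * (c + 2) ≤ t + 1 := Nat.le_of_dvd (Nat.succ_pos t) (Nat.Coprime.mul_dvd_of_dvd_of_dvd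
        ((Nat.coprime_self_add_right (m := c + 1) (n := 1)).2 (Nat.coprime_one_right _)) h3 h4)
      have := hP.lt
      omega
    · have h3 := Finset.card_image_of_injOn (inj true (P.erase (.Z (-1))) (Finset.erase_subset _ _) (by simp))
      have h4 := Finset.card_le_card
        (Finset.image_subset_image (f := fun q => h true (f .mrg q)) (Finset.erase_subset (B.Z (-1)) P))
      have := Finset.card_erase_add_one h1
      omega

def up (P : Finset (B c)) : Finset (Bool × B c) := P.image fun q => (true, q)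

theorem up_card (P : Finset (B c)) : (up P).card = P.card :=
  Finset.card_image_of_injective _ fun _ _ h => (Prod.mk.inj h).2

theorem lower (N : ℕ) : ∀ (P : Finset (B c)) t m, Good P t → P.card = m + 2 → Within (δ c) 2 N (up P) →
    (m + 1) * ((c + 1) * (c + 2)) ≤ N + t := by
  induction N with
  | zero => exact fun _ _ _ _ _ h => h.elim
  | succ N ih =>
    rintro P t m hP hm ⟨a | b, ha⟩
    · obtain ⟨b, t', h1, h2⟩ := step hP a
      have e : img (δ c) (img (δ c) (up P) [.inl a]) [.inr b] = up (P.image fun q => h b (f a q)) := by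
        simp [img, up, Finset.image_image, Function.comp_def, δ]
      have e1 : (P.image fun q => h b (f a q)).card ≤ (img (δ c) (up P) [.inl a]).card := by
        rw [← up_card, ← e]; exact Finset.card_image_le
      have e2 : (P.image fun q => h b (f a q)).card ≤ P.card := Finset.card_image_le
      rcases ha with ha | ha
      · rcases h2 with h2 | h2
        · omega
        · obtain rfl : m = 0 := by omega
          omega
      have h3 := ha [.inr b] (by simp)
      rw [e] at h3
      by_cases h4 : (P.image fun q => h b (f a q)).card = P.card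
      · have := ih _ t' m h1 (h4.trans hm) h3
        omega
      · obtain ⟨h5, rfl, h6⟩ := h2.resolve_left fun h => h4 h.1
        rcases m with _ | m
        · omega
        · have := ih _ 0 m h1 (by omega) h3
          rw [Nat.add_mul (m + 1)]
          omega
    · have e : img (δ c) (up P) [.inr b] = up P := by
        simp [img, up, Finset.image_image, Function.comp_def, δ]
      rw [e] at ha
      rcases ha with ha | ha
      · rw [up_card] at ha; omega
      · have := ih P t m hP hm (by simpa [img] using ha [] (by simp))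
        omega

theorem wins (c : ℕ) : ∃ N, Within (δ c) 2 N Finset.univ := by
  obtain ⟨R, hR⟩ := w_all (c := c)
  exact ⟨_, all_win (.inl .inc) hR _ _ ⟨(true, .g), Finset.mem_univ _⟩ (Nat.lt_succ_self _)⟩

theorem length_ge (c : ℕ) : (c + 1) * ((c + 1) * (c + 2)) ≤ gameLength (δ c) 2 := by
  have h1 : Within (δ c) 2 (gameLength (δ c) 2) Finset.univ := Nat.sInf_mem (wins c)
  have h2 : (Finset.univ.image (B.park (c := c))).card = c + 2 := by
    rw [Finset.card_image_of_injective _ fun _ _ h => B.park.inj h]; simp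
  refine lower _ (Finset.univ.image B.park) 0 c ?_ h2
    (h1.subset (Finset.subset_univ _) ?_)
  · simpa using good0 (P := Finset.univ.image (B.park (c := c))) (φ := id) fun q hq => by
      obtain ⟨j, -, rfl⟩ := Finset.mem_image.1 hq
      exact Or.inl ⟨j, rfl⟩
  · rw [← Finset.card_pos, up_card, h2]; omega

def eqv (c : ℕ) : B c ≃ Fin (c + 2) ⊕ ZMod (c + 1) ⊕ ZMod (c + 2) ⊕ Unit where
  toFun
    | .park i => .inl i
    | .X t => .inr (.inl t)
    | .Z t => .inr (.inr (.inl t))
    | .g => .inr (.inr (.inr ()))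
  invFun
    | .inl i => .park i
    | .inr (.inl t) => .X t
    | .inr (.inr (.inl t)) => .Z t
    | .inr (.inr (.inr _)) => .g
  left_inv q := by cases q <;> rfl
  right_inv q := by rcases q with _ | _ | _ | _ <;> rfl

theorem card_Q (c : ℕ) : Fintype.card (Bool × B c) = 6 * (c + 2) := by
  rw [Fintype.card_prod, Fintype.card_congr (eqv c)]
  simp [ZMod.card]; omega

end Pool.Agent.H.MP_3d7070_lc
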