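import Mathlib

namespace Pool.Agent.H.MP_3d7070_lc

variable {Q A : Type} [DecidableEq Q] (δ : Q → A → Q)

/-- the set `P · w` -/
def img (P : Finset Q) (w : List A) : Finset Q := P.image fun q => w.foldl δ q

/-- in the `k`-game from the current set `P`, Alice to move, Alice can force a win within `N` of her moves -/
def Within (k : ℕ) : ℕ → Finset Q → Prop
  | 0, _ => False
  | N + 1, P => ∃ a, (img δ P [a]).card = 1 ∨ ∀ u : List A, u.length ≤ k → Within k N (img δ (img δ P [a]) u)

/-- the `k`-game length -/
noncomputable def gameLength [Fintype Q] (k : ℕ) : ℕ := sInf {N | Within δ k N Finset.univ}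

end Pool.Agent.H.MP_3d7070_lc
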